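import Pool.Agent.helper62.VN.SpecG

/-!
# Row vne:GF1: the fields `FJ`, `FW` to first order
-/

set_option autoImplicit false

open scoped MatrixGroups ContDiff Topology UpperHalfPlane
open UpperHalfPlane MeasureTheory Filter Set

namespace Pool.Agent.VNE

open Pool.Agent.RS Pool.Agent.VQE
open Pool.Agent.VQ (Dyn rho kap n1 n2 hess Ug TF)
open Pool.Agent.VN (PotN OKN Kg)

noncomputable section

theorem GF1_mono {A A' r r' : ℝ} {φ : ℝ → ℝ → ℝ} {φ0 α β : ℝ} (hA : A ≤ A') (hr : r' ≤ r) (h : TL A r φ φ0 α β) : TL A' r' φ φ0 α β := by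
  refine ⟨h.v0, ⟨h.bd.1.trans hA, h.bd.2.1.trans hA, h.bd.2.2.trans hA⟩, ?_⟩
  intro b c b' c' hb hc hb' hc'
  refine (h.tl b c b' c' (hb.trans hr) (hc.trans hr) (hb'.trans hr) (hc'.trans hr)).trans ?_
  have h1 : 0 ≤ |b| + |c| + |b'| + |c'| := by positivity
  have h2 : 0 ≤ |b - b'| + |c - c'| := by positivity
  exact mul_le_mul_of_nonneg_right (mul_le_mul_of_nonneg_right hA h1) h2

/-- uniform families -/
def GF1_U {I : Type} (φ : I → ℝ → ℝ → ℝ) (φ0 α β : I → ℝ) : Prop :=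
  ∃ A r : ℝ, 1 ≤ A ∧ 0 < r ∧ ∀ i, TL A r (φ i) (φ0 i) (α i) (β i)

theorem GF1_congr {I : Type} {φ φ' : I → ℝ → ℝ → ℝ} {φ0 α β φ0' α' β' : I → ℝ} (h : GF1_U φ φ0 α β)
    (h1 : ∀ i b c, φ i b c = φ' i b c) (h2 : ∀ i, φ0 i = φ0' i) (h3 : ∀ i, α i = α' i) (h4 : ∀ i, β i = β' i) : GF1_U φ' φ0' α' β' := by
  have e1 : φ = φ' := by funext i b c; exact h1 i b c
  have e2 : φ0 = φ0' := funext h2
  have e3 : α = α' := funext h3
  have e4 : β = β' := funext h4
  rw [← e1, ← e2, ← e3, ← e4]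
  exact h

theorem GF1_op (hG : GO2_stmt) {I : Type} {φ ψ : I → ℝ → ℝ → ℝ} {φ0 α β ψ0 α' β' : I → ℝ} (h : GF1_U φ φ0 α β) (h' : GF1_U ψ ψ0 α' β') :
    GF1_U (fun i b c => φ i b c + ψ i b c) (fun i => φ0 i + ψ0 i) (fun i => α i + α' i) (fun i => β i + β' i) ∧
    GF1_U (fun i b c => φ i b c - ψ i b c) (fun i => φ0 i - ψ0 i) (fun i => α i - α' i) (fun i => β i - β' i) ∧
    GF1_U (fun i b c => φ i b c * ψ i b c) (fun i => φ0 i * ψ0 i) (fun i => φ0 i * α' i + ψ0 i * α i) (fun i => φ0 i * β' i + ψ0 i * β i) := by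
  obtain ⟨A, r, hA, hr, h1⟩ := h
  obtain ⟨A2, r2, hA2, hr2, h2⟩ := h'
  obtain ⟨A', r', hA', hr', -, hop, -⟩ := hG (max A A2) (min r r2) (le_trans hA (le_max_left _ _)) (lt_min hr hr2)
  have k1 : ∀ i, TL (max A A2) (min r r2) (φ i) (φ0 i) (α i) (β i) := fun i => GF1_mono (le_max_left _ _) (min_le_left _ _) (h1 i)
  have k2 : ∀ i, TL (max A A2) (min r r2) (ψ i) (ψ0 i) (α' i) (β' i) := fun i => GF1_mono (le_max_right _ _) (min_le_right _ _) (h2 i)
  exact ⟨⟨A', r', hA', hr', fun i => (hop _ _ _ _ _ _ _ _ (k1 i) (k2 i)).1⟩, ⟨A', r', hA', hr', fun i => (hop _ _ _ _ _ _ _ _ (k1 i) (k2 i)).2.1⟩,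
    ⟨A', r', hA', hr', fun i => (hop _ _ _ _ _ _ _ _ (k1 i) (k2 i)).2.2.1⟩⟩

theorem GF1_inv (hG : GO2_stmt) {I : Type} {φ : I → ℝ → ℝ → ℝ} {φ0 α β : I → ℝ} (h : GF1_U φ φ0 α β) (K : ℝ) (hK : 1 ≤ K) (h0 : ∀ i, 1 / K ≤ |φ0 i|) :
    GF1_U (fun i b c => (φ i b c)⁻¹) (fun i => (φ0 i)⁻¹) (fun i => -(α i / φ0 i ^ 2)) (fun i => -(β i / φ0 i ^ 2)) := by
  obtain ⟨A, r, hA, hr, h1⟩ := h
  obtain ⟨A', r', hA', hr', -, hop, -⟩ := hG (max A K) r (le_trans hA (le_max_left _ _)) hr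
  have k1 : ∀ i, TL (max A K) r (φ i) (φ0 i) (α i) (β i) := fun i => GF1_mono (le_max_left _ _) le_rfl (h1 i)
  refine ⟨A', r', hA', hr', fun i => (hop _ _ _ _ _ _ _ _ (k1 i) (k1 i)).2.2.2 ?_⟩
  refine le_trans ?_ (h0 i)
  exact one_div_le_one_div_of_le (by linarith) (le_max_right _ _)

theorem GF1_b (hG : GO2_stmt) {I : Type} : GF1_U (fun (_ : I) b _ => b) (fun _ => 0) (fun _ => 1) (fun _ => 0) := by
  obtain ⟨A', r', hA', hr', -, -, -, h, -⟩ := hG 1 1 le_rfl one_pos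
  exact ⟨A', r', hA', hr', fun _ => h⟩

theorem GF1_c (hG : GO2_stmt) {I : Type} : GF1_U (fun (_ : I) _ c => c) (fun _ => 0) (fun _ => 0) (fun _ => 1) := by
  obtain ⟨A', r', hA', hr', -, -, -, -, h, -⟩ := hG 1 1 le_rfl one_pos
  exact ⟨A', r', hA', hr', fun _ => h⟩

theorem GF1_s (hG : GO2_stmt) {I : Type} : GF1_U (fun (_ : I) b c => √(1 + b * c)) (fun _ => 1) (fun _ => 0) (fun _ => 0) := by
  obtain ⟨A', r', hA', hr', -, -, h, -⟩ := hG 1 1 le_rfl one_pos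
  exact ⟨A', r', hA', hr', fun _ => h⟩

theorem GF1_k (hG : GO2_stmt) {I : Type} (a : I → ℝ) (K : ℝ) (hK : 1 ≤ K) (ha : ∀ i, |a i| ≤ K) : GF1_U (fun i _ _ => a i) a (fun _ => 0) (fun _ => 0) := by
  obtain ⟨A', r', hA', hr', -, -, -, -, -, h⟩ := hG K 1 hK one_pos
  exact ⟨A', r', hA', hr', fun i => h (a i) (ha i)⟩

/-- the index set -/
structure GF1_I (K : ℝ) where
  X : Fd
  pa : SL(2, ℝ) → ℝ
  qa : SL(2, ℝ) → ℝ
  qd : SL(2, ℝ) → ℝ
  g : SL(2, ℝ)
  h : PH K X pa qa qd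

theorem GF1_pp {K : ℝ} (hK : 1 ≤ K) (i : GF1_I K) : 0 < i.X.p i.g := by
  have h1 := (i.h.pb i.g).1
  have h2 : 0 < 1 / K := by positivity
  linarith

theorem GF1_sg (hG : GO2_stmt) {K : ℝ} (hK : 1 ≤ K) : GF1_U (fun (i : GF1_I K) b c => sg i.X.p i.X.q i.g b c) (fun _ => 1)
    (fun i => -((i.pa i.g + 2 * i.X.q i.g) / i.X.p i.g)) (fun i => -((i.pa i.g + 2 * i.X.q i.g) / i.X.p i.g)) := by
  have hp : ∀ i : GF1_I K, |i.X.p i.g| ≤ K := fun i => by
    rw [abs_of_pos (GF1_pp hK i)]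
    exact (i.h.pb i.g).2
  have tp : GF1_U (fun (i : GF1_I K) b c => i.X.p (i.g * dg b c)) (fun i => i.X.p i.g) (fun i => i.pa i.g) (fun i => i.pa i.g) :=
    ⟨K, 1 / K, hK, by positivity, fun i => i.h.tp i.g⟩
  have tq : GF1_U (fun (i : GF1_I K) b c => i.X.q (i.g * dg b c)) (fun i => i.X.q i.g) (fun i => i.qa i.g + i.qd i.g) (fun i => i.qa i.g - i.qd i.g) :=
    ⟨K, 1 / K, hK, by positivity, fun i => i.h.tq i.g⟩
  have kp := GF1_k hG (fun i : GF1_I K => i.X.p i.g) K hK hp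
  have kq := GF1_k hG (fun i : GF1_I K => i.X.q i.g) K hK (fun i => (i.h.qb i.g).1)
  have s : GF1_U (fun (_ : GF1_I K) b c => b + c) _ _ _ := (GF1_op hG (GF1_b hG) (GF1_c hG)).1
  have num := (GF1_op hG (GF1_op hG (GF1_s hG) kp).2.2 (GF1_op hG s kq).2.2).2.1
  have den := (GF1_op hG (GF1_op hG (GF1_s hG) tp).2.2 (GF1_op hG s tq).2.2).1
  have inv := GF1_inv hG den K hK (fun i => by
    show 1 / K ≤ |1 * i.X.p i.g + (0 + 0) * i.X.q i.g|
    rw [one_mul, add_zero, zero_mul, add_zero, abs_of_pos (GF1_pp hK i)]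
    exact (i.h.pb i.g).1)
  refine GF1_congr (GF1_op hG num inv).2.2 ?_ ?_ ?_ ?_
  · intro i b c
    unfold sg
    rw [div_eq_mul_inv]
  · intro i
    have := (GF1_pp hK i).ne'
    simp only [one_mul, mul_one, add_zero, zero_add, zero_mul, mul_zero, sub_zero, zero_sub]
    field_simp
    try ring
  · intro i
    have := (GF1_pp hK i).ne'
    simp only [one_mul, mul_one, add_zero, zero_add, zero_mul, mul_zero, sub_zero, zero_sub]
    field_simp
    try ring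
  · intro i
    have := (GF1_pp hK i).ne'
    simp only [one_mul, mul_one, add_zero, zero_add, zero_mul, mul_zero, sub_zero, zero_sub]
    field_simp
    try ring

theorem GF1_uv (hG : GO2_stmt) {K : ℝ} (hK : 1 ≤ K) :
    GF1_U (fun (i : GF1_I K) b c => hu i.X.p i.X.q i.g b c) (fun _ => 0)
      (fun i => i.X.p i.g - 1 - i.X.q i.g * (i.pa i.g + 2 * i.X.q i.g) / i.X.p i.g + (i.qa i.g + i.qd i.g))
      (fun i => -(i.X.q i.g * (i.pa i.g + 2 * i.X.q i.g) / i.X.p i.g) + (i.qa i.g - i.qd i.g)) ∧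
    GF1_U (fun (i : GF1_I K) b c => hv i.X.p i.X.q i.g b c) (fun _ => 0)
      (fun i => -(i.X.q i.g * (i.pa i.g + 2 * i.X.q i.g) / i.X.p i.g) + (i.qa i.g + i.qd i.g))
      (fun i => i.X.p i.g - 1 - i.X.q i.g * (i.pa i.g + 2 * i.X.q i.g) / i.X.p i.g + (i.qa i.g - i.qd i.g)) := by
  have hp : ∀ i : GF1_I K, |i.X.p i.g| ≤ K := fun i => by
    rw [abs_of_pos (GF1_pp hK i)]
    exact (i.h.pb i.g).2
  have tp : GF1_U (fun (i : GF1_I K) b c => i.X.p (i.g * dg b c)) (fun i => i.X.p i.g) (fun i => i.pa i.g) (fun i => i.pa i.g) :=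
    ⟨K, 1 / K, hK, by positivity, fun i => i.h.tp i.g⟩
  have tq : GF1_U (fun (i : GF1_I K) b c => i.X.q (i.g * dg b c)) (fun i => i.X.q i.g) (fun i => i.qa i.g + i.qd i.g) (fun i => i.qa i.g - i.qd i.g) :=
    ⟨K, 1 / K, hK, by positivity, fun i => i.h.tq i.g⟩
  have kp := GF1_k hG (fun i : GF1_I K => i.X.p i.g) K hK hp
  have kq := GF1_k hG (fun i : GF1_I K => i.X.q i.g) K hK (fun i => (i.h.qb i.g).1)
  have k2 := GF1_k hG (fun _ : GF1_I K => (2 : ℝ)⁻¹) 1 le_rfl (fun _ => by rw [abs_of_pos (by norm_num)]; norm_num)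
  have k1 := GF1_k hG (fun _ : GF1_I K => (1 : ℝ)) 1 le_rfl (fun _ => by rw [abs_one])
  have hs := GF1_sg hG hK
  have H := (GF1_op hG (GF1_op hG (GF1_op hG (GF1_op hG tp hs).2.2 kp).1 k2).2.2 k1).2.1
  have SQ := (GF1_op hG (GF1_s hG) (GF1_op hG (GF1_op hG tq hs).2.2 kq).2.1).2.2
  have U := (GF1_op hG (GF1_op hG H (GF1_b hG)).2.2 SQ).1
  have V := (GF1_op hG (GF1_op hG H (GF1_c hG)).2.2 SQ).1
  constructor
  · refine GF1_congr U ?_ ?_ ?_ ?_
    · intro i b c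
      unfold hu
      rw [div_eq_mul_inv]
    · intro i
      have := (GF1_pp hK i).ne'
      simp only [one_mul, mul_one, add_zero, zero_add, zero_mul, mul_zero, sub_zero, zero_sub]
      field_simp
      try ring
    · intro i
      have := (GF1_pp hK i).ne'
      simp only [one_mul, mul_one, add_zero, zero_add, zero_mul, mul_zero, sub_zero, zero_sub]
      field_simp
      try ring
    · intro i
      have := (GF1_pp hK i).ne'
      simp only [one_mul, mul_one, add_zero, zero_add, zero_mul, mul_zero, sub_zero, zero_sub]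
      field_simp
      try ring
  · refine GF1_congr V ?_ ?_ ?_ ?_
    · intro i b c
      unfold hv
      rw [div_eq_mul_inv]
    · intro i
      have := (GF1_pp hK i).ne'
      simp only [one_mul, mul_one, add_zero, zero_add, zero_mul, mul_zero, sub_zero, zero_sub]
      field_simp
      try ring
    · intro i
      have := (GF1_pp hK i).ne'
      simp only [one_mul, mul_one, add_zero, zero_add, zero_mul, mul_zero, sub_zero, zero_sub]
      field_simp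
      try ring
    · intro i
      have := (GF1_pp hK i).ne'
      simp only [one_mul, mul_one, add_zero, zero_add, zero_mul, mul_zero, sub_zero, zero_sub]
      field_simp
      try ring

theorem GF1_fj (hG : GO2_stmt) {K : ℝ} (hK : 1 ≤ K) :
    GF1_U (fun (i : GF1_I K) b c => -(i.X.p i.g ^ 2 * i.X.m i.g * (b + c)) - i.X.p i.g * ((c - b) + (hv i.X.p i.X.q i.g b c - hu i.X.p i.X.q i.g b c))) (fun _ => 0)
      (fun i => -(i.X.p i.g ^ 2 * i.X.m i.g) + i.X.p i.g ^ 2) (fun i => -(i.X.p i.g ^ 2 * i.X.m i.g) - i.X.p i.g ^ 2) ∧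
    GF1_U (fun (i : GF1_I K) b c => (-(b + c) - (hu i.X.p i.X.q i.g b c + hv i.X.p i.X.q i.g b c)) - i.X.m1 i.g * (b + c) - i.X.m i.g * ((c - b) + (hv i.X.p i.X.q i.g b c - hu i.X.p i.X.q i.g b c)))
      (fun _ => 0) (fun i => -(i.X.κ i.g * i.X.p i.g)) (fun i => -(i.X.κ i.g * i.X.p i.g)) := by
  have hp : ∀ i : GF1_I K, |i.X.p i.g| ≤ K := fun i => by
    rw [abs_of_pos (GF1_pp hK i)]
    exact (i.h.pb i.g).2
  have kp := GF1_k hG (fun i : GF1_I K => i.X.p i.g) K hK hp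
  have km := GF1_k hG (fun i : GF1_I K => i.X.m i.g) K hK (fun i => (i.h.qb i.g).2.1)
  have km1 := GF1_k hG (fun i : GF1_I K => i.X.m1 i.g) K hK (fun i => (i.h.qb i.g).2.2)
  have k0 := GF1_k hG (fun _ : GF1_I K => (-1 : ℝ)) 1 le_rfl (fun _ => by rw [abs_neg, abs_one])
  obtain ⟨U, V⟩ := GF1_uv hG hK
  have s := (GF1_op hG (GF1_b (I := GF1_I K) hG) (GF1_c hG)).1
  have d := (GF1_op hG (GF1_c (I := GF1_I K) hG) (GF1_b hG)).2.1
  have e := (GF1_op hG d (GF1_op hG V U).2.1).1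
  have F := (GF1_op hG (GF1_op hG k0 (GF1_op hG (GF1_op hG (GF1_op hG kp kp).2.2 km).2.2 s).2.2).2.2 (GF1_op hG kp e).2.2).2.1
  have W := (GF1_op hG (GF1_op hG (GF1_op hG (GF1_op hG k0 s).2.2 (GF1_op hG U V).1).2.1 (GF1_op hG km1 s).2.2).2.1 (GF1_op hG km e).2.2).2.1
  constructor
  · refine GF1_congr F ?_ ?_ ?_ ?_
    · intro i b c
      ring
    · intro i
      ring
    · intro i
      have := (GF1_pp hK i).ne'
      simp only [one_mul, mul_one, add_zero, zero_add, zero_mul, mul_zero, sub_zero, zero_sub]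
      field_simp
      try ring
    · intro i
      have := (GF1_pp hK i).ne'
      simp only [one_mul, mul_one, add_zero, zero_add, zero_mul, mul_zero, sub_zero, zero_sub]
      field_simp
      try ring
  · refine GF1_congr W ?_ ?_ ?_ ?_
    · intro i b c
      ring
    · intro i
      ring
    · intro i
      have h1 := i.h.id1 i.g
      have h2 := i.h.id2 i.g
      have h3 := (GF1_pp hK i).ne'
      simp only [one_mul, mul_one, add_zero, zero_add, zero_mul, mul_zero, sub_zero, zero_sub]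
      have h4 : i.qd i.g = i.X.m i.g * i.X.p i.g / 2 := by linarith
      have h5 : i.X.m1 i.g = -i.X.p i.g - 2 * i.qa i.g + 2 * i.X.q i.g * (i.pa i.g + 2 * i.X.q i.g) / i.X.p i.g + i.X.κ i.g * i.X.p i.g := by linarith
      rw [h4, h5]
      field_simp
      try ring
    · intro i
      have h1 := i.h.id1 i.g
      have h2 := i.h.id2 i.g
      have h3 := (GF1_pp hK i).ne'
      simp only [one_mul, mul_one, add_zero, zero_add, zero_mul, mul_zero, sub_zero, zero_sub]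
      have h4 : i.qd i.g = i.X.m i.g * i.X.p i.g / 2 := by linarith
      have h5 : i.X.m1 i.g = -i.X.p i.g - 2 * i.qa i.g + 2 * i.X.q i.g * (i.pa i.g + 2 * i.X.q i.g) / i.X.p i.g + i.X.κ i.g * i.X.p i.g := by linarith
      rw [h4, h5]
      field_simp
      try ring

theorem GF1_abs {K p m J W : ℝ} (hK : 1 ≤ K) (hp : 1 / K ≤ p) (hm : |m| ≤ K) :
    |(W - (1 + m) * J / p) / 2| ≤ K ^ 2 * (|J| + |W|) ∧ |(-W - (1 - m) * J / p) / 2| ≤ K ^ 2 * (|J| + |W|) := by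
  have hK0 : 0 < K := by linarith
  have h0 : 0 < 1 / K := by positivity
  have hp0 : 0 < p := by linarith
  have hpi : p⁻¹ ≤ K := by
    rw [inv_le_comm₀ hp0 hK0, ← one_div]
    exact hp
  have hpi0 : 0 < p⁻¹ := inv_pos.mpr hp0
  have key : ∀ n : ℝ, |n| ≤ 2 * K → |n * J / p| ≤ 2 * K ^ 2 * |J| := by
    intro n hn
    rw [div_eq_mul_inv, abs_mul, abs_mul, abs_of_pos hpi0]
    have h1 : |n| * |J| ≤ 2 * K * |J| := mul_le_mul_of_nonneg_right hn (abs_nonneg _)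
    have h2 : |n| * |J| * p⁻¹ ≤ 2 * K * |J| * K := mul_le_mul h1 hpi hpi0.le (by positivity)
    linarith [h2, (by ring : 2 * K * |J| * K = 2 * K ^ 2 * |J|)]
  have hm' := abs_le.mp hm
  have k1 := key (1 + m) (by rw [abs_le]; constructor <;> linarith)
  have k2 := key (1 - m) (by rw [abs_le]; constructor <;> linarith)
  have hW : |W| ≤ K ^ 2 * |W| := by
    have : 1 ≤ K ^ 2 := by nlinarith
    nlinarith [abs_nonneg W]
  have hK2 : 0 ≤ K ^ 2 * |J| := by positivity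
  have hw := abs_nonneg W
  constructor
  · rw [abs_div, abs_two]
    have := abs_sub W ((1 + m) * J / p)
    linarith
  · rw [abs_div, abs_two]
    have := abs_sub (-W) ((1 - m) * J / p)
    rw [abs_neg] at this
    linarith

theorem GF1_proof (h1 : GO2_stmt) : GF1_stmt := by
  intro K hK
  obtain ⟨⟨A1, r1, hA1, hr1, F⟩, A2, r2, hA2, hr2, W⟩ := GF1_fj h1 hK
  obtain ⟨A, hA⟩ : ∃ A, A = max A1 A2 := ⟨_, rfl⟩
  obtain ⟨r, hr⟩ : ∃ r, r = min r1 r2 := ⟨_, rfl⟩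
  have hA0 : 1 ≤ A := by rw [hA]; exact hA1.trans (le_max_left _ _)
  have hr0 : 0 < r := by rw [hr]; exact lt_min hr1 hr2
  have hK2 : 1 ≤ K ^ 2 := by nlinarith
  obtain ⟨K', hK'⟩ : ∃ K', K' = K + 4 * A * K ^ 4 + K ^ 2 / r := ⟨_, rfl⟩
  have q1 : 0 ≤ 4 * A * K ^ 4 := by positivity
  have q2 : 0 ≤ K ^ 2 / r := by positivity
  have hKK' : K ≤ K' := by rw [hK']; linarith
  have hK'4 : 4 * A * K ^ 4 ≤ K' := by rw [hK']; linarith
  have hK'r : K ^ 2 / r ≤ K' := by rw [hK']; linarith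
  have hK'0 : 0 < K' := by linarith
  refine ⟨K', hKK', ?_⟩
  intro X pa qa qd hX g J W' J' W'' hJ hJ'
  obtain ⟨i, hi⟩ : ∃ i : GF1_I K, i = ⟨X, pa, qa, qd, g, hX⟩ := ⟨_, rfl⟩
  have hm := (hX.qb g).2.1
  have hp := (hX.pb g).1
  have hp0 : 0 < X.p g := by
    have : 0 < 1 / K := by positivity
    linarith
  have sm : ∀ n : ℝ, n ≤ 1 / K' → K ^ 2 * n ≤ r := by
    intro n hn
    have h1 : K ^ 2 * n ≤ K ^ 2 * (1 / K') := mul_le_mul_of_nonneg_left hn (by positivity)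
    have h2 : K ^ 2 * (1 / K') ≤ r := by
      rw [mul_one_div, div_le_iff₀ hK'0]
      rw [div_le_iff₀ hr0] at hK'r
      linarith
    linarith
  have b1 := GF1_abs (J := J) (W := W') hK hp hm
  have b2 := GF1_abs (J := J') (W := W'') hK hp hm
  have b3 := GF1_abs (J := J - J') (W := W' - W'') hK hp hm
  obtain ⟨b, hb⟩ : ∃ b, b = bj X g J W' := ⟨_, rfl⟩
  obtain ⟨c, hc⟩ : ∃ c, c = cj X g J W' := ⟨_, rfl⟩
  obtain ⟨b', hb'⟩ : ∃ b, b = bj X g J' W'' := ⟨_, rfl⟩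
  obtain ⟨c', hc'⟩ : ∃ c, c = cj X g J' W'' := ⟨_, rfl⟩
  have e1 : (W' - W'' - (1 + X.m g) * (J - J') / X.p g) / 2 = b - b' := by
    rw [hb, hb']
    unfold bj
    ring
  have e2 : (-(W' - W'') - (1 - X.m g) * (J - J') / X.p g) / 2 = c - c' := by
    rw [hc, hc']
    unfold cj
    ring
  rw [e1, e2] at b3
  have b1' : |b| ≤ K ^ 2 * (|J| + |W'|) ∧ |c| ≤ K ^ 2 * (|J| + |W'|) := by rw [hb, hc]; exact b1
  have b2' : |b'| ≤ K ^ 2 * (|J'| + |W''|) ∧ |c'| ≤ K ^ 2 * (|J'| + |W''|) := by rw [hb', hc']; exact b2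
  have s1 := sm _ hJ
  have s2 := sm _ hJ'
  have f1 : X.p g * (b - b' + (c - c')) = -(J - J') := by
    rw [← e1, ← e2]
    field_simp
    ring
  have f2 : b - b' - (c - c') = (W' - W'') - X.m g * (J - J') / X.p g := by
    rw [← e1, ← e2]
    ring
  have f2' : X.p g * (b - b' - (c - c')) = X.p g * (W' - W'') - X.m g * (J - J') := by
    rw [f2]
    field_simp
  have fin : ∀ (Z A' : ℝ), A' ≤ A → 0 ≤ A' → Z ≤ A' * (|b| + |c| + |b'| + |c'|) * (|b - b'| + |c - c'|) → Z ≤ K' * (|J| + |W'| + |J'| + |W''|) * (|J - J'| + |W' - W''|) := by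
    intro Z A' hAA hA'0 hZ
    refine hZ.trans ?_
    have g1 : |b| + |c| + |b'| + |c'| ≤ 2 * K ^ 2 * (|J| + |W'| + |J'| + |W''|) := by linarith [b1'.1, b1'.2, b2'.1, b2'.2]
    have g2 : |b - b'| + |c - c'| ≤ 2 * K ^ 2 * (|J - J'| + |W' - W''|) := by linarith [b3.1, b3.2]
    have g3 : A' * (|b| + |c| + |b'| + |c'|) ≤ A * (2 * K ^ 2 * (|J| + |W'| + |J'| + |W''|)) := mul_le_mul hAA g1 (by positivity) (by linarith)
    have g4 : A' * (|b| + |c| + |b'| + |c'|) * (|b - b'| + |c - c'|) ≤ A * (2 * K ^ 2 * (|J| + |W'| + |J'| + |W''|)) * (2 * K ^ 2 * (|J - J'| + |W' - W''|)) :=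
      mul_le_mul g3 g2 (by positivity) (by positivity)
    refine g4.trans ?_
    have g5 : A * (2 * K ^ 2 * (|J| + |W'| + |J'| + |W''|)) * (2 * K ^ 2 * (|J - J'| + |W' - W''|)) = 4 * A * K ^ 4 * ((|J| + |W'| + |J'| + |W''|) * (|J - J'| + |W' - W''|)) := by ring
    rw [g5, mul_assoc K']
    exact mul_le_mul_of_nonneg_right hK'4 (by positivity)
  have hF := (F i).tl b c b' c' ((b1'.1.trans s1).trans (by rw [hr]; exact min_le_left _ _)) ((b1'.2.trans s1).trans (by rw [hr]; exact min_le_left _ _))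
    ((b2'.1.trans s2).trans (by rw [hr]; exact min_le_left _ _)) ((b2'.2.trans s2).trans (by rw [hr]; exact min_le_left _ _))
  have hW := (W i).tl b c b' c' ((b1'.1.trans s1).trans (by rw [hr]; exact min_le_right _ _)) ((b1'.2.trans s1).trans (by rw [hr]; exact min_le_right _ _))
    ((b2'.1.trans s2).trans (by rw [hr]; exact min_le_right _ _)) ((b2'.2.trans s2).trans (by rw [hr]; exact min_le_right _ _))
  rw [hi] at hF hW
  simp only [] at hF hW
  constructor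
  · refine fin _ A1 (by rw [hA]; exact le_max_left _ _) (by linarith) (le_trans (le_of_eq ?_) hF)
    congr 1
    unfold FJ uj vj
    rw [← hb, ← hc, ← hb', ← hc']
    linear_combination (-(X.p g * X.m g)) * f1 + X.p g * f2'
  · refine fin _ A2 (by rw [hA]; exact le_max_right _ _) (by linarith) (le_trans (le_of_eq ?_) hW)
    congr 1
    unfold FW uj vj
    rw [← hb, ← hc, ← hb', ← hc']
    linear_combination (-(X.κ g)) * f1

end

end Pool.Agent.VNE
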