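import Pool.Agent.helper62.VN.SpecE
import Pool.Agent.helper43.VQE.SML

/-!
# Row vne:NSM: short times
-/

set_option autoImplicit false

open scoped MatrixGroups ContDiff Topology UpperHalfPlane
open UpperHalfPlane MeasureTheory Filter Set

namespace Pool.Agent.VNE

open Pool.Agent.RS Pool.Agent.VQE

theorem NSM_lin {K u v P Q : ℝ} (hK : 1 ≤ K) (hu : |u| ≤ 9 / 8) (hv : |v| ≤ 1 / 8) (hP : |P| ≤ K) (hQ : |Q| ≤ K) :
    |u * (P / 2) + v * Q| < 2 * K ∧ |-(u * Q) - v * (P / 2)| < 2 * K ∧ |v * (P / 2) + u * Q| < 2 * K ∧ |-(v * Q) - u * (P / 2)| < 2 * K := by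
  have hP2 : |P / 2| ≤ K / 2 := by
    rw [abs_le] at hP ⊢
    constructor <;> linarith [hP.1, hP.2]
  have h1 : |u * (P / 2)| ≤ 9 / 8 * (K / 2) := by
    rw [abs_mul]
    exact mul_le_mul hu hP2 (abs_nonneg _) (by norm_num)
  have h2 : |v * Q| ≤ 1 / 8 * K := by
    rw [abs_mul]
    exact mul_le_mul hv hQ (abs_nonneg _) (by norm_num)
  have h3 : |v * (P / 2)| ≤ 1 / 8 * (K / 2) := by
    rw [abs_mul]
    exact mul_le_mul hv hP2 (abs_nonneg _) (by norm_num)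
  have h4 : |u * Q| ≤ 9 / 8 * K := by
    rw [abs_mul]
    exact mul_le_mul hu hQ (abs_nonneg _) (by norm_num)
  rw [abs_le] at h1 h2 h3 h4
  refine ⟨?_, ?_, ?_, ?_⟩ <;> rw [abs_lt] <;> constructor <;>
    linarith [h1.1, h1.2, h2.1, h2.2, h3.1, h3.2, h4.1, h4.2]

theorem NSM_eps {K ε z : ℝ} (hε : |ε| = 1) (hz : |z| < 2 * K) : |ε * z| < 2 * K := by
  rw [abs_mul, hε, one_mul]
  exact hz

theorem NSM_core (K ε : ℝ) (a b c d P Q : ℝ → ℝ) (hK : 1 ≤ K) (hε : |ε| = 1)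
    (hP : ∀ t, |P t| ≤ K) (hQ : ∀ t, |Q t| ≤ K)
    (ha : ∀ t, HasDerivAt a (ε * (a t * (P t / 2) + b t * Q t)) t)
    (hb : ∀ t, HasDerivAt b (ε * (-(a t * Q t) - b t * (P t / 2))) t)
    (hc : ∀ t, HasDerivAt c (ε * (c t * (P t / 2) + d t * Q t)) t)
    (hd : ∀ t, HasDerivAt d (ε * (-(c t * Q t) - d t * (P t / 2))) t)
    (a0 : a 0 = 1) (b0 : b 0 = 0) (c0 : c 0 = 0) (d0 : d 0 = 1) :
    ∀ t, 0 ≤ t → t ≤ 1 / (16 * K) → |a t - 1| ≤ 2 * K * t ∧ |b t| ≤ 2 * K * t ∧ |c t| ≤ 2 * K * t ∧ |d t - 1| ≤ 2 * K * t := by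
  have hK0 : (0 : ℝ) < 16 * K := by linarith
  have hder : ∀ t, HasDerivAt (fun t => ((a t - 1, b t), (c t, d t - 1)))
      ((ε * (a t * (P t / 2) + b t * Q t), ε * (-(a t * Q t) - b t * (P t / 2))),
        (ε * (c t * (P t / 2) + d t * Q t), ε * (-(c t * Q t) - d t * (P t / 2)))) t := fun t =>
    (((ha t).sub_const 1).prodMk (hb t)).prodMk ((hc t).prodMk ((hd t).sub_const 1))
  have key := image_norm_le_of_norm_deriv_right_lt_deriv_boundary (a := 0) (b := 1 / (16 * K))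
    (f := fun t => ((a t - 1, b t), (c t, d t - 1)))
    (f' := fun t => ((ε * (a t * (P t / 2) + b t * Q t), ε * (-(a t * Q t) - b t * (P t / 2))),
        (ε * (c t * (P t / 2) + d t * Q t), ε * (-(c t * Q t) - d t * (P t / 2)))))
    (B := fun t => 2 * K * t) (B' := fun _ => 2 * K)
    (fun t _ => (hder t).continuousAt.continuousWithinAt) (fun t _ => (hder t).hasDerivWithinAt)
    (by simp [a0, b0, c0, d0]) (fun t => ((hasDerivAt_id t).const_mul (2 * K)).congr_deriv (mul_one _))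
    (by
      intro t ht hn
      have hn' : ‖(((a t - 1, b t), (c t, d t - 1)) : (ℝ × ℝ) × (ℝ × ℝ))‖ ≤ 1 / 8 := by
        have h2 := ht.2
        change ‖(((a t - 1, b t), (c t, d t - 1)) : (ℝ × ℝ) × (ℝ × ℝ))‖ = 2 * K * t at hn
        rw [hn]
        rw [lt_div_iff₀ hK0] at h2
        linarith
      rw [norm_prod_le_iff, norm_prod_le_iff, norm_prod_le_iff] at hn'
      obtain ⟨⟨h1, h2⟩, h3, h4⟩ := hn'
      simp only [Real.norm_eq_abs] at h1 h2 h3 h4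
      have hP' := hP t
      have hQ' := hQ t
      have ha' : |a t| ≤ 9 / 8 := by
        rw [abs_le] at h1 ⊢
        constructor <;> linarith [h1.1, h1.2]
      have hd' : |d t| ≤ 9 / 8 := by
        rw [abs_le] at h4 ⊢
        constructor <;> linarith [h4.1, h4.2]
      obtain ⟨r1, r2, -, -⟩ := NSM_lin hK ha' h2 hP' hQ'
      obtain ⟨-, -, r3, r4⟩ := NSM_lin hK hd' h3 hP' hQ'
      change ‖(((ε * (a t * (P t / 2) + b t * Q t), ε * (-(a t * Q t) - b t * (P t / 2))),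
        (ε * (c t * (P t / 2) + d t * Q t), ε * (-(c t * Q t) - d t * (P t / 2)))) : (ℝ × ℝ) × (ℝ × ℝ))‖ < 2 * K
      rw [Prod.norm_def, Prod.norm_def, Prod.norm_def]
      simp only [Real.norm_eq_abs]
      exact max_lt (max_lt (NSM_eps hε r1) (NSM_eps hε r2)) (max_lt (NSM_eps hε r3) (NSM_eps hε r4)))
  intro t ht0 ht1
  have h := key ⟨ht0, ht1⟩
  change ‖(((a t - 1, b t), (c t, d t - 1)) : (ℝ × ℝ) × (ℝ × ℝ))‖ ≤ 2 * K * t at h
  rw [norm_prod_le_iff, norm_prod_le_iff, norm_prod_le_iff] at h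
  obtain ⟨⟨h1, h2⟩, h3, h4⟩ := h
  exact ⟨h1, h2, h3, h4⟩

theorem NSM_nm {K : ℝ} {p q : SL(2, ℝ) → ℝ} {f : ℝ → SL(2, ℝ) → SL(2, ℝ)} (hK : 1 ≤ K)
    (hp : ∀ g, |p g| ≤ K) (hq : ∀ g, |q g| ≤ K) (hf : Flw p q f) (g : SL(2, ℝ)) (t : ℝ) (ht : |t| ≤ 1 / (16 * K)) :
    |(g⁻¹ * f t g).1 0 0 - 1| ≤ 2 * K * |t| ∧ |(g⁻¹ * f t g).1 0 1| ≤ 2 * K * |t| ∧ |(g⁻¹ * f t g).1 1 0| ≤ 2 * K * |t| ∧
      |(g⁻¹ * f t g).1 1 1 - 1| ≤ 2 * K * |t| := by
  have h0 : g⁻¹ * f 0 g = 1 := by rw [hf.zero, inv_mul_cancel]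
  rcases le_total 0 t with h | h
  · have key := NSM_core K 1 (fun s => (g⁻¹ * f s g).1 0 0) (fun s => (g⁻¹ * f s g).1 0 1)
      (fun s => (g⁻¹ * f s g).1 1 0) (fun s => (g⁻¹ * f s g).1 1 1) (fun s => p (f s g)) (fun s => q (f s g)) hK
      abs_one (fun s => hp _) (fun s => hq _)
      (fun s => (SML_d0 hf g 0 s).congr_deriv (by ring)) (fun s => (SML_d1 hf g 0 s).congr_deriv (by ring))
      (fun s => (SML_d0 hf g 1 s).congr_deriv (by ring)) (fun s => (SML_d1 hf g 1 s).congr_deriv (by ring))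
      (by simp [h0]) (by simp [h0]) (by simp [h0]) (by simp [h0]) t h (by rwa [abs_of_nonneg h] at ht)
    rw [abs_of_nonneg h]
    exact key
  · have key := NSM_core K (-1) (fun s => (g⁻¹ * f (-s) g).1 0 0) (fun s => (g⁻¹ * f (-s) g).1 0 1)
      (fun s => (g⁻¹ * f (-s) g).1 1 0) (fun s => (g⁻¹ * f (-s) g).1 1 1) (fun s => p (f (-s) g))
      (fun s => q (f (-s) g)) hK
      (by rw [abs_neg, abs_one]) (fun s => hp _) (fun s => hq _)
      (fun s => SML_neg (SML_d0 hf g 0 (-s))) (fun s => SML_neg (SML_d1 hf g 0 (-s)))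
      (fun s => SML_neg (SML_d0 hf g 1 (-s))) (fun s => SML_neg (SML_d1 hf g 1 (-s)))
      (by simp [h0]) (by simp [h0]) (by simp [h0]) (by simp [h0]) (-t) (by linarith)
      (by rwa [abs_of_nonpos h] at ht)
    rw [abs_of_nonpos h]
    simp only [neg_neg] at key
    exact key

theorem NSM_big {K r u v P Q P0 Q0 : ℝ} (hK : 1 ≤ K) (hr : 0 ≤ r) (hu : |u - 1| ≤ 2 * K * r) (hv : |v| ≤ 2 * K * r) (hP : |P| ≤ K) (hQ : |Q| ≤ K)
    (hP0 : |P - P0| ≤ 2 * K ^ 2 * r) (hQ0 : |Q - Q0| ≤ 2 * K ^ 2 * r) :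
    |u * (P / 2) + v * Q - P0 / 2| ≤ 16 * K ^ 2 * r ∧ |-(u * Q) - v * (P / 2) - (-Q0)| ≤ 16 * K ^ 2 * r ∧
      |v * (P / 2) + u * Q - Q0| ≤ 16 * K ^ 2 * r ∧ |-(v * Q) - u * (P / 2) - (-(P0 / 2))| ≤ 16 * K ^ 2 * r := by
  have hKr : 0 ≤ 2 * K * r := by positivity
  have hP2 : |P / 2| ≤ K := by
    rw [abs_le] at hP ⊢
    constructor <;> linarith [hP.1, hP.2]
  have m : 2 * K * r * K = 2 * K ^ 2 * r := by ring
  have e1 : |(u - 1) * (P / 2)| ≤ 2 * K ^ 2 * r := by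
    rw [abs_mul, ← m]
    exact mul_le_mul hu hP2 (abs_nonneg _) hKr
  have e2 : |v * Q| ≤ 2 * K ^ 2 * r := by
    rw [abs_mul, ← m]
    exact mul_le_mul hv hQ (abs_nonneg _) hKr
  have e3 : |v * (P / 2)| ≤ 2 * K ^ 2 * r := by
    rw [abs_mul, ← m]
    exact mul_le_mul hv hP2 (abs_nonneg _) hKr
  have e4 : |(u - 1) * Q| ≤ 2 * K ^ 2 * r := by
    rw [abs_mul, ← m]
    exact mul_le_mul hu hQ (abs_nonneg _) hKr
  have h0 : 0 ≤ K ^ 2 * r := by positivity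
  rw [abs_le] at e1 e2 e3 e4 hP0 hQ0
  have f1 : u * (P / 2) = (u - 1) * (P / 2) + P / 2 := by ring
  have f2 : u * Q = (u - 1) * Q + Q := by ring
  rw [f1, f2]
  refine ⟨?_, ?_, ?_, ?_⟩ <;> rw [abs_le] <;> constructor <;>
    linarith [e1.1, e1.2, e2.1, e2.2, e3.1, e3.2, e4.1, e4.2, hP0.1, hP0.2, hQ0.1, hQ0.2]

theorem NSM_proof (h1 : VQE.NMB_stmt) : NSM_stmt := by
  intro K hK
  refine ⟨16 * K ^ 2, by nlinarith, ?_⟩
  intro X hX g r t t' hr ht ht'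
  have hr0 : 0 ≤ r := (abs_nonneg t).trans ht
  have hK0 : (0 : ℝ) < K := by linarith
  have hp : ∀ g, |X.p g| ≤ K := fun g => by
    have := hX.pb g
    have h0 : 0 < 1 / K := by positivity
    rw [abs_le]
    constructor <;> linarith [this.1, this.2]
  have hq : ∀ g, |X.q g| ≤ K := fun g => (hX.qb g).1
  have hr' : r ≤ 1 / (16 * K) := by
    refine hr.trans ?_
    apply one_div_le_one_div_of_le (by positivity)
    nlinarith
  have hM : ∀ s, |s| ≤ r → |(g⁻¹ * X.f s g).1 0 0 - 1| ≤ 2 * K * r ∧ |(g⁻¹ * X.f s g).1 0 1| ≤ 2 * K * r ∧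
      |(g⁻¹ * X.f s g).1 1 0| ≤ 2 * K * r ∧ |(g⁻¹ * X.f s g).1 1 1 - 1| ≤ 2 * K * r := by
    intro s hs
    obtain ⟨k1, k2, k3, k4⟩ := NSM_nm hK hp hq hX.flw g s (hs.trans hr')
    have h2 : 2 * K * |s| ≤ 2 * K * r := mul_le_mul_of_nonneg_left hs (by positivity)
    exact ⟨k1.trans h2, k2.trans h2, k3.trans h2, k4.trans h2⟩
  have hL : ∀ s, |s| ≤ r → |X.p (X.f s g) - X.p g| ≤ 2 * K ^ 2 * r ∧ |X.q (X.f s g) - X.q g| ≤ 2 * K ^ 2 * r := by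
    intro s hs
    obtain ⟨k1, k2, k3, k4⟩ := hM s hs
    have hn : nm (g⁻¹ * X.f s g) ≤ 2 * K * r := max_le (max_le k1 k2) (max_le k3 k4)
    have h2 := hX.lip g (g⁻¹ * X.f s g)
    rw [mul_inv_cancel_left] at h2
    have h3 : K * nm (g⁻¹ * X.f s g) ≤ 2 * K ^ 2 * r := by
      have := mul_le_mul_of_nonneg_left hn hK0.le
      linarith [this, (by ring : K * (2 * K * r) = 2 * K ^ 2 * r)]
    exact ⟨h2.1.trans h3, h2.2.1.trans h3⟩
  have b00 := SML_mvt (k := X.p g / 2) (C := 16 * K ^ 2 * r) (SML_d0 hX.flw g 0)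
    (fun s hs => (NSM_big hK hr0 (hM s hs).1 (hM s hs).2.1 (hp _) (hq _) (hL s hs).1 (hL s hs).2).1) ht ht'
  have b01 := SML_mvt (k := -X.q g) (C := 16 * K ^ 2 * r) (SML_d1 hX.flw g 0)
    (fun s hs => (NSM_big hK hr0 (hM s hs).1 (hM s hs).2.1 (hp _) (hq _) (hL s hs).1 (hL s hs).2).2.1) ht ht'
  have b10 := SML_mvt (k := X.q g) (C := 16 * K ^ 2 * r) (SML_d0 hX.flw g 1)
    (fun s hs => (NSM_big hK hr0 (hM s hs).2.2.2 (hM s hs).2.2.1 (hp _) (hq _) (hL s hs).1 (hL s hs).2).2.2.1) ht ht'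
  have b11 := SML_mvt (k := -(X.p g / 2)) (C := 16 * K ^ 2 * r) (SML_d1 hX.flw g 1)
    (fun s hs => (NSM_big hK hr0 (hM s hs).2.2.2 (hM s hs).2.2.1 (hp _) (hq _) (hL s hs).1 (hL s hs).2).2.2.2) ht ht'
  obtain ⟨k1, k2, k3, k4⟩ := NSM_nm hK hp hq hX.flw g t (ht.trans hr')
  refine ⟨?_, ?_⟩
  · refine le_trans (max_le (max_le k1 k2) (max_le k3 k4)) ?_
    apply mul_le_mul_of_nonneg_right _ (abs_nonneg t)
    nlinarith
  · intro i j
    rw [mul_comm (t - t')]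
    fin_cases i <;> fin_cases j
    · exact b00
    · exact b01
    · exact b10
    · exact b11

end Pool.Agent.VNE
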